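import Mathlib

/-!
# Bounded families in products of cardinals
-/

namespace Pool.Agent.Lib_MP_38e082_pb

open Cardinal Order

/-- every family of `lam⁺` many functions in the product of the cardinals `e i`, `i ∈ I`, is bounded
modulo the filter `F`: there is a function `h` in the product with `g x i ≤ h i` for `F`-almost all
`i`, for each member `g x` of the family -/
def Bounded (lam : Cardinal.{0}) {I : Type} (F : Filter I) (e : I → Cardinal.{0}) : Prop :=
  ∀ g : (succ lam).ord.ToType → ∀ i, (e i).ord.ToType,
    ∃ h : ∀ i, (e i).ord.ToType, ∀ x, ∀ᶠ i in F, g x i ≤ h i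

end Pool.Agent.Lib_MP_38e082_pb
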