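import Pool.Agent.Lib_MP_38e082_ap.Defs
import Pool.Agent.Lib_MP_38e082_pb.Defs

/-!
# The relation `(λ⁺, λ⁺, λ) → ν` at singular cardinals with large bounding numbers

Let `F` be a proper filter on a set `I` of fewer than `λ` indices, `d i < λ` regular cardinals which
are `F`-eventually above every `c < λ`, `2^c < (d i)^{+m}` for `c < d i`, and
`2^((d i)^{+m}) ≤ (d i)^{+n}`. Suppose that every family of `λ⁺` functions in `∏ (d i)^{+k}` is bounded
modulo `F`, for `k ≤ n`. Then `(λ⁺, λ⁺, λ) → ν` for all `ν < λ`. (This extends the theorem of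
helper64 in Lib_MP_38e082_lm for limits of measurable cardinals.)

## Proof
* `capture`: every family of `λ⁺` many functions in `∏ T i`, `#(T i) ≤ (d i)^{+n}`, is captured modulo
  `F` by sets `s i ⊆ T i` with `#(s i) < d i` (induction on `n`).
* `key`: let `f` be a set mapping as in the problem, `P` a set of size `> λ`. Take `K i ⊆ P` of size
  `(d i)^{+m}`, capture the functions `i ↦ f x ∩ K i` by `s i`, and take `Q i ⊆ K i` of size
  `(d i)^{+m}` which is contained in or disjoint from each member of `s i`. Hence for each `x`, for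
  `F`-almost all `i`, `Q i ⊆ f x` or `Q i ∩ f x = ∅`. If `Q i ⊆ f x` for an `F`-positive set `L` of
  indices, for `λ⁺` many `x`, then this holds for `λ⁺` many `x` with the same `L`, and the union of the
  `Q i`, `i ∈ L`, has size `λ`, contradiction. So for all but `λ` many `x`, `Q i ∩ f x = ∅` for
  `F`-almost all `i`; let `y i ∈ Q i`.
* `Yf`: choose by recursion on `η < ν` (`ν` regular, `#I < ν`) sequences `Y η x : I → S`, where
  `T x ξ = {i | Y ξ x i ∉ f x}`, `Cls η x = {z | T z ξ = T x ξ for all ξ < η}`, `Y η x` depends only on the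
  class `Cls η x` and is a sequence of points in this class as in `key`. There are at most `λ` classes,
  so there is `x` all of whose classes have size `> λ` and `T x η ∈ F` for all `η`. Let `i η ∈ T x η`, so
  `i η = i` for `ν` many `η`; the points `Y η x i` for these `η` form a free set.
-/

namespace Pool.Agent.Lib_MP_38e082_pb

open Cardinal Set Order

universe u

section Capture

variable {lam : Cardinal.{0}} {I : Type} {F : Filter I}

theorem Bounded.of_type {e : I → Cardinal.{0}} (hb : Bounded lam F e) {S : Type}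
    (hS : #S = succ lam) (g : S → ∀ i, (e i).ord.ToType) :
    ∃ h : ∀ i, (e i).ord.ToType, ∀ x, ∀ᶠ i in F, g x i ≤ h i := by
  have h0 : #S = #(succ lam).ord.ToType := by rw [hS, mk_ord_toType]
  obtain ⟨eq⟩ := Cardinal.eq.1 h0
  obtain ⟨h, hh⟩ := hb fun x i => g (eq.symm x) i
  exact ⟨h, fun x => by simpa using hh (eq x)⟩

private theorem iic_lt {c : Cardinal.{0}} (hc : ℵ₀ ≤ c) (a : c.ord.ToType) : #(Iic a) < c := by
  have h1 : (Iic a : Set c.ord.ToType) ⊆ Iio a ∪ {a} := fun x hx => by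
    rcases lt_or_eq_of_le (mem_Iic.1 hx) with h | h
    · exact Or.inl h
    · exact Or.inr h
  refine (mk_le_mk_of_subset h1).trans_lt ((mk_union_le _ _).trans_lt ?_)
  have h2 : #(Iio a) < c := by simpa using mk_Iio_lt a
  exact add_lt_of_lt hc h2 (by simpa using one_lt_aleph0.trans_le hc)

/-- the capture lemma -/
theorem capture {d : I → Cardinal.{0}} (hd : ∀ i, ℵ₀ ≤ d i) {S : Type} (hS : #S = succ lam) :
    ∀ n : ℕ, (∀ k ≤ n, Bounded lam F fun i => succ^[k] (d i)) →
      ∀ T : I → Type, (∀ i, #(T i) ≤ succ^[n] (d i)) → ∀ g : S → ∀ i, T i,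
        ∃ s : ∀ i, Set (T i), (∀ i, #(s i) < d i) ∧ ∀ x, ∀ᶠ i in F, g x i ∈ s i := by
  intro n
  induction n with
  | zero =>
    intro hb T hT g
    have h1 : ∀ i, Nonempty (T i ↪ (d i).ord.ToType) := by
      intro i
      rw [← Cardinal.le_def, mk_ord_toType]
      exact hT i
    let E : ∀ i, T i ↪ (d i).ord.ToType := fun i => (h1 i).some
    obtain ⟨h, hh⟩ := (hb 0 le_rfl).of_type hS fun x i => E i (g x i)
    refine ⟨fun i => {t | E i t ≤ h i}, fun i => ?_, fun x => hh x⟩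
    refine lt_of_le_of_lt ?_ (iic_lt (hd i) (h i))
    refine mk_le_of_injective (f := fun t => (⟨E i t.1, t.2⟩ : Iic (h i))) ?_
    intro a b hab
    exact Subtype.ext ((E i).injective (congrArg Subtype.val hab))
  | succ n ih =>
    intro hb T hT g
    classical
    have hsn : ∀ i, ℵ₀ ≤ succ^[n] (d i) := fun i => (hd i).trans (Order.le_succ_iterate n _)
    have hsn1 : ∀ i, ℵ₀ ≤ succ^[n + 1] (d i) := fun i => (hd i).trans (Order.le_succ_iterate _ _)
    have h1 : ∀ i, Nonempty (T i ↪ (succ^[n + 1] (d i)).ord.ToType) := by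
      intro i
      rw [← Cardinal.le_def, mk_ord_toType]
      exact hT i
    let E : ∀ i, T i ↪ (succ^[n + 1] (d i)).ord.ToType := fun i => (h1 i).some
    obtain ⟨h, hh⟩ := (hb (n + 1) le_rfl).of_type hS fun x i => E i (g x i)
    let T' : I → Type := fun i => Option {t : T i | E i t ≤ h i}
    have hT' : ∀ i, #(T' i) ≤ succ^[n] (d i) := by
      intro i
      have h2 : #{t : T i | E i t ≤ h i} < succ^[n + 1] (d i) := by
        refine lt_of_le_of_lt ?_ (iic_lt (hsn1 i) (h i))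
        refine mk_le_of_injective (f := fun t => (⟨E i t.1, t.2⟩ : Iic (h i))) ?_
        intro a b hab
        exact Subtype.ext ((E i).injective (congrArg Subtype.val hab))
      have h2' := lt_succ_iff.1 (h2.trans_eq (Function.iterate_succ_apply' succ n (d i)))
      change #(Option {t : T i | E i t ≤ h i}) ≤ _
      rw [mk_option]
      exact add_le_of_le (hsn i) h2' (one_le_aleph0.trans (hsn i))
    obtain ⟨s, hs1, hs2⟩ := ih (fun k hk => hb k (hk.trans (Nat.le_succ n))) T' hT'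
      fun x i => if hx : E i (g x i) ≤ h i then some ⟨g x i, hx⟩ else none
    refine ⟨fun i => {t | ∃ ht : E i t ≤ h i, (some ⟨t, ht⟩ : T' i) ∈ s i}, fun i => ?_,
      fun x => ?_⟩
    · refine lt_of_le_of_lt ?_ (hs1 i)
      refine mk_le_of_injective
        (f := fun t => (⟨some ⟨t.1, t.2.choose⟩, t.2.choose_spec⟩ : s i)) ?_
      intro a b hab
      have h3 := Option.some.inj (congrArg Subtype.val hab)
      have h4 := congrArg (fun t : {t : T i | E i t ≤ h i} => (t : T i)) h3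
      exact Subtype.ext h4
    · filter_upwards [hh x, hs2 x] with i hi1 hi2
      simp only [dif_pos hi1] at hi2
      exact ⟨hi1, hi2⟩

end Capture

/-! ### the standing assumptions -/

/-- the hypotheses of the theorem -/
structure Ctx (lam : Cardinal.{0}) {I : Type} (F : Filter I) (d : I → Cardinal.{0}) (m n : ℕ) :
    Prop where
  nb : F.NeBot
  small : #I < lam
  reg : ∀ i, (d i).IsRegular
  lt : ∀ i, d i < lam
  pow : ∀ i, ∀ c < d i, 2 ^ c < succ^[m] (d i)
  pow' : ∀ i, 2 ^ (succ^[m] (d i)) ≤ succ^[n] (d i)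
  lim : ∀ c < lam, ∀ᶠ i in F, c < d i
  bdd : ∀ k ≤ n, Bounded lam F fun i => succ^[k] (d i)

section Ctx

variable {lam : Cardinal.{0}} {I : Type} {F : Filter I} {d : I → Cardinal.{0}} {m n : ℕ}

theorem Ctx.ex (h : Ctx lam F d m n) {c : Cardinal.{0}} (hc : c < lam) : ∃ i, c < d i := by
  have := h.nb
  exact (h.lim c hc).exists

theorem Ctx.idx (h : Ctx lam F d m n) : Nonempty I := by
  have := h.nb
  exact Filter.nonempty_of_neBot F

theorem Ctx.inf (h : Ctx lam F d m n) : ℵ₀ ≤ lam := by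
  obtain ⟨i⟩ := h.idx
  exact (h.reg i).aleph0_le.trans (h.lt i).le

theorem Ctx.succ_lt (h : Ctx lam F d m n) {c : Cardinal.{0}} (hc : c < lam) : succ c < lam := by
  obtain ⟨i, hi⟩ := h.ex hc
  exact (succ_le_of_lt hi).trans_lt (h.lt i)

theorem Ctx.iter_lt (h : Ctx lam F d m n) {c : Cardinal.{0}} (hc : c < lam) (k : ℕ) :
    succ^[k] c < lam := by
  induction k with
  | zero => exact hc
  | succ k ih =>
    rw [Function.iterate_succ_apply']
    exact h.succ_lt ih

theorem Ctx.pow_lt (h : Ctx lam F d m n) {c : Cardinal.{0}} (hc : c < lam) : 2 ^ c < lam := by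
  obtain ⟨i, hi⟩ := h.ex hc
  exact (h.pow i c hi).trans (h.iter_lt (h.lt i) m)

theorem Ctx.reg' (h : Ctx lam F d m n) (i : I) (k : ℕ) : (succ^[k] (d i)).IsRegular := by
  induction k with
  | zero => exact h.reg i
  | succ k ih =>
    rw [Function.iterate_succ_apply']
    exact isRegular_succ ih.aleph0_le

/-- unions of at most `lam` many sets of size at most `lam` -/
theorem un_le {lam : Cardinal.{0}} (hl : ℵ₀ ≤ lam) {S W : Type} (A : W → Set S) (hW : #W ≤ lam)
    (hA : ∀ w, #(A w) ≤ lam) : #(⋃ w, A w : Set S) ≤ lam := by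
  refine (mk_iUnion_le A).trans ?_
  refine (mul_le_mul' hW (ciSup_le' hA)).trans ?_
  exact (mul_eq_self hl).le

end Ctx

/-! ### the key lemma -/

section Key

variable {lam : Cardinal.{0}} {I : Type} {F : Filter I} {d : I → Cardinal.{0}} {m n : ℕ}

/-- `y` is a sequence of points of `P` which are outside of `f x` for almost all indices, for all
but `lam` many `x` -/
def Good (lam : Cardinal.{0}) {I : Type} (F : Filter I) {S : Type} (f : S → Set S) (P : Set S)
    (y : I → S) : Prop :=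
  (∀ i, y i ∈ P) ∧ #{x | ¬ ∀ᶠ i in F, y i ∉ f x} ≤ lam

/-- a set of size `lam` is contained in or disjoint from few sets -/
private theorem atom {c k : Cardinal.{0}} (hk : k.IsRegular) (hc : 2 ^ c < k) {K : Type}
    (hK : #K = k) (s : Set (Set K)) (hs : #s ≤ c) :
    ∃ Q : Set K, k ≤ #Q ∧ ∀ a ∈ s, (∀ q ∈ Q, q ∈ a) ∨ ∀ q ∈ Q, q ∉ a := by
  have h1 : #(Set s) < k := by
    rw [mk_set]
    exact (power_le_power_left two_ne_zero hs).trans_lt hc
  obtain ⟨b, hb⟩ := infinite_pigeonhole_card (fun q : K => ({a | q ∈ a.1} : Set s)) k hK.ge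
    hk.aleph0_le (by rwa [hk.cof_ord])
  refine ⟨_, hb, fun a ha => ?_⟩
  by_cases hab : (⟨a, ha⟩ : s) ∈ b
  · left
    intro q hq
    have h2 : ({a | q ∈ a.1} : Set s) = b := hq
    rw [← h2] at hab
    exact hab
  · right
    intro q hq hqa
    have h2 : ({a | q ∈ a.1} : Set s) = b := hq
    exact hab (h2 ▸ hqa)

theorem key (h : Ctx lam F d m n) {S : Type} (hS : #S = succ lam) {f : S → Set S}
    (hI : ∀ X : Set S, #X = succ lam → #(⋂ x ∈ X, f x : Set S) < lam) {P : Set S}
    (hP : lam < #P) : ∃ y : I → S, Good lam F f P y := by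
  classical
  have hnb := h.nb
  -- the sets `K i`
  have hK : ∀ i, ∃ K : Set S, K ⊆ P ∧ #K = succ^[m] (d i) := fun i =>
    le_mk_iff_exists_subset.1 ((h.iter_lt (h.lt i) m).trans hP).le
  choose K hKP hKc using hK
  obtain ⟨s, hs1, hs2⟩ := capture (F := F) (fun i => (h.reg i).aleph0_le) hS n h.bdd
    (fun i => Set (K i)) (fun i => by rw [mk_set, hKc]; exact h.pow' i)
    (fun x i => {k : K i | (k : S) ∈ f x})
  have hQ : ∀ i, ∃ Q : Set (K i), succ^[m] (d i) ≤ #Q ∧
      ∀ a ∈ s i, (∀ q ∈ Q, q ∈ a) ∨ ∀ q ∈ Q, q ∉ a := fun i =>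
    atom (h.reg' i m) (h.pow i _ (hs1 i)) (hKc i) (s i) le_rfl
  choose Q hQc hQa using hQ
  have hdQ : ∀ i, d i ≤ #(Q i) := fun i => (Order.le_succ_iterate m _).trans (hQc i)
  -- the sets of indices
  let L : S → Set I := fun x => {i | ∀ q ∈ Q i, (q : S) ∈ f x}
  have hB : #{x | ∃ᶠ i in F, i ∈ L x} ≤ lam := by
    by_contra hcon
    rw [not_le] at hcon
    have h1 : succ lam ≤ #{x | ∃ᶠ i in F, i ∈ L x} := succ_le_of_lt hcon
    have hreg : (succ lam).IsRegular := isRegular_succ h.inf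
    have h2 : #(Set I) < (succ lam).ord.cof := by
      rw [hreg.cof_ord, mk_set]
      exact (h.pow_lt h.small).trans (lt_succ lam)
    obtain ⟨L0, hL0⟩ := infinite_pigeonhole_card
      (fun x : {x | ∃ᶠ i in F, i ∈ L x} => L x.1) (succ lam) h1 hreg.aleph0_le h2
    set X : Set S := Subtype.val '' ((fun x : {x | ∃ᶠ i in F, i ∈ L x} => L x.1) ⁻¹' {L0})
      with hX
    have hXc : #X = succ lam := by
      refine le_antisymm ((mk_set_le X).trans_eq hS) ?_
      rw [hX, mk_image_eq Subtype.val_injective]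
      exact hL0
    have hlt := hI X hXc
    have hne : X.Nonempty := by
      rw [← nonempty_coe_sort, ← mk_ne_zero_iff, hXc]
      exact (hreg.pos).ne'
    obtain ⟨_, ⟨x, hxL, rfl⟩⟩ := hne
    have hxL' : L x.1 = L0 := hxL
    have hfr : ∃ᶠ i in F, i ∈ L0 := by
      have := x.2
      rw [mem_ofPred_eq, hxL'] at this
      exact this
    obtain ⟨i, hi1, hi2⟩ := (hfr.and_eventually (h.lim _ hlt)).exists
    refine absurd hi2 (not_lt.2 ((hdQ i).trans ?_))
    refine mk_le_of_injective (f := fun q : Q i =>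
      (⟨((q : K i) : S), ?_⟩ : (⋂ x ∈ X, f x : Set S))) ?_
    · rw [mem_iInter₂]
      rintro _ ⟨z, hzL, rfl⟩
      have hz : L z.1 = L0 := hzL
      rw [← hz] at hi1
      exact hi1 q.1 q.2
    · intro a b hab
      have h5 := congrArg (fun t : (⋂ x ∈ X, f x : Set S) => (t : S)) hab
      exact Subtype.ext (Subtype.ext h5)
  -- the points
  have hy : ∀ i, ∃ q : K i, q ∈ Q i := by
    intro i
    have h1 : #(Q i) ≠ 0 := ((h.reg i).pos.trans_le (hdQ i)).ne'
    obtain ⟨q⟩ := mk_ne_zero_iff.1 h1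
    exact ⟨q.1, q.2⟩
  choose y hy using hy
  refine ⟨fun i => y i, fun i => hKP i (y i).2, le_trans (mk_le_mk_of_subset ?_) hB⟩
  intro x hx
  rw [mem_ofPred_eq] at hx ⊢
  by_contra hcon
  rw [Filter.not_frequently] at hcon
  apply hx
  filter_upwards [hcon, hs2 x] with i hi1 hi2 hi3
  rcases hQa i _ hi2 with h1 | h1
  · exact hi1 h1
  · exact h1 _ (hy i) hi3

end Key

/-! ### the recursion -/

section Rec

variable {lam : Cardinal.{0}} {I : Type} (F : Filter I) {S : Type} (f : S → Set S)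
  {W : Type} [LinearOrder W] [WellFoundedLT W] [Nonempty (I → S)]

/-- the sequences of points: `Yf η x` depends only on the class of `x` at stage `η` -/
noncomputable def Yf (lam : Cardinal.{0}) (W : Type) [LinearOrder W] [WellFoundedLT W] :
    W → S → I → S :=
  (wellFounded_lt (α := W)).fix fun η Y x =>
    Classical.epsilon fun y : I → S => Good lam F f
      ({z | ∀ ξ (h : ξ < η), {i | Y ξ h z i ∉ f z} = {i | Y ξ h x i ∉ f x}} \
        {z | ∃ ξ, ∃ h : ξ < η, ∃ i, z = Y ξ h x i ∨ z ∈ f (Y ξ h x i)}) y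

/-- the types -/
def Tf (lam : Cardinal.{0}) (x : S) (ξ : W) : Set I := {i | Yf F f lam W ξ x i ∉ f x}

/-- the classes -/
def Cls (lam : Cardinal.{0}) (η : W) (x : S) : Set S :=
  {z | ∀ ξ < η, Tf F f lam z ξ = Tf F f lam x ξ}

/-- the points to be avoided -/
def Av (lam : Cardinal.{0}) (η : W) (x : S) : Set S :=
  {z | ∃ ξ < η, ∃ i, z = Yf F f lam W ξ x i ∨ z ∈ f (Yf F f lam W ξ x i)}

theorem Yf_eq (η : W) (x : S) : Yf F f lam W η x =
    Classical.epsilon fun y : I → S => Good lam F f (Cls F f lam η x \ Av F f lam η x) y := by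
  have h := congrFun ((wellFounded_lt (α := W)).fix_eq (C := fun _ => S → I → S)
    (fun η Y x => Classical.epsilon fun y : I → S => Good lam F f
      ({z | ∀ ξ (h : ξ < η), {i | Y ξ h z i ∉ f z} = {i | Y ξ h x i ∉ f x}} \
        {z | ∃ ξ, ∃ h : ξ < η, ∃ i, z = Y ξ h x i ∨ z ∈ f (Y ξ h x i)}) y) η) x
  refine h.trans ?_
  have h1 : ({z | ∀ ξ (h : ξ < η), {i | Yf F f lam W ξ z i ∉ f z} =
      {i | Yf F f lam W ξ x i ∉ f x}} : Set S) = Cls F f lam η x := rfl
  have h2 : ({z | ∃ ξ, ∃ h : ξ < η, ∃ i, z = Yf F f lam W ξ x i ∨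
      z ∈ f (Yf F f lam W ξ x i)} : Set S) = Av F f lam η x := by
    ext z
    constructor
    · rintro ⟨ξ, h, i, hi⟩
      exact ⟨ξ, h, i, hi⟩
    · rintro ⟨ξ, h, i, hi⟩
      exact ⟨ξ, h, i, hi⟩
  rw [← h1, ← h2]
  rfl

theorem Cls_eq {η : W} {x z : S} (h : z ∈ Cls F f lam η x) :
    Cls F f lam η z = Cls F f lam η x := by
  ext w
  constructor
  · intro hw ξ hξ
    exact (hw ξ hξ).trans (h ξ hξ)
  · intro hw ξ hξ
    exact (hw ξ hξ).trans (h ξ hξ).symm

theorem Cls_mono {ξ η : W} (h : ξ < η) {x z : S} (hz : z ∈ Cls F f lam η x) :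
    z ∈ Cls F f lam ξ x := fun ζ hζ => hz ζ (hζ.trans h)

theorem Yf_congr (η : W) : ∀ x z : S, z ∈ Cls F f lam η x →
    Yf F f lam W η z = Yf F f lam W η x := by
  induction η using (wellFounded_lt (α := W)).induction with
  | _ η ih =>
    intro x z hz
    have h1 : Av F f lam η z = Av F f lam η x := by
      ext w
      constructor
      · rintro ⟨ξ, h, i, hi⟩
        rw [ih ξ h x z (Cls_mono F f h hz)] at hi
        exact ⟨ξ, h, i, hi⟩
      · rintro ⟨ξ, h, i, hi⟩
        rw [← ih ξ h x z (Cls_mono F f h hz)] at hi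
        exact ⟨ξ, h, i, hi⟩
    rw [Yf_eq, Yf_eq, Cls_eq F f hz, h1]

end Rec

/-! ### the theorem -/

section Main

variable {lam : Cardinal.{0}} {I : Type} {F : Filter I} {d : I → Cardinal.{0}} {m n : ℕ}

theorem main_reg (h : Ctx lam F d m n) {nu : Cardinal.{0}} (hnu : nu.IsRegular) (hlt : nu < lam)
    (hIn : #I < nu) {S : Type} {f : S → Set S} (hS : #S = succ lam) (hfc : ∀ x, #(f x) ≤ lam)
    (hI : ∀ X : Set S, #X = succ lam → #(⋂ x ∈ X, f x : Set S) < lam) :
    ∃ H : Set S, #H = nu ∧ ∀ x ∈ H, ∀ y ∈ H, x ≠ y → y ∉ f x := by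
  classical
  have hl := h.inf
  have hnb := h.nb
  have hSne : Nonempty S := by
    rw [← mk_ne_zero_iff, hS]
    exact ((isRegular_succ hl).pos).ne'
  have hne : Nonempty (I → S) := ⟨fun _ => hSne.some⟩
  let W : Type := nu.ord.ToType
  have hW : #W = nu := mk_ord_toType nu
  let Y : W → S → I → S := Yf F f lam W
  -- the sequences are good
  have hgood : ∀ (η : W) (x : S), lam < #(Cls F f lam η x) →
      Good lam F f (Cls F f lam η x \ Av F f lam η x) (Y η x) := by
    intro η x hx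
    have hAv : #(Av F f lam η x) ≤ lam := by
      have h1 : Av F f lam η x ⊆ ⋃ p : W × I, insert (Y p.1 x p.2) (f (Y p.1 x p.2)) := by
        rintro z ⟨ξ, -, i, hi⟩
        exact mem_iUnion.2 ⟨(ξ, i), hi⟩
      refine (mk_le_mk_of_subset h1).trans (un_le hl _ ?_ fun p => ?_)
      · rw [mk_prod, lift_id, lift_id, hW]
        exact (mul_le_mul' hlt.le h.small.le).trans (mul_eq_self hl).le
      · exact mk_insert_le.trans (add_le_of_le hl (hfc _) (one_le_aleph0.trans hl))
    have hbig : lam < #(Cls F f lam η x \ Av F f lam η x : Set S) := by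
      by_contra hcon
      rw [not_lt] at hcon
      refine absurd hx (not_lt.2 ?_)
      have h1 : Cls F f lam η x ⊆ (Cls F f lam η x \ Av F f lam η x) ∪ Av F f lam η x := by
        intro z hz
        by_cases hz' : z ∈ Av F f lam η x
        · exact Or.inr hz'
        · exact Or.inl ⟨hz, hz'⟩
      exact (mk_le_mk_of_subset h1).trans ((mk_union_le _ _).trans (add_le_of_le hl hcon hAv))
    have h2 := Classical.epsilon_spec (key h hS hI hbig)
    change Good lam F f (Cls F f lam η x \ Av F f lam η x) (Yf F f lam W η x)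
    rw [Yf_eq]
    exact h2
  -- the exceptional points
  have hcnt : #(W × (W → Set I)) ≤ lam := by
    rw [mk_prod, lift_id, lift_id, mk_pi, prod_const, lift_id, lift_id, mk_set, ← power_mul, hW]
    refine (mul_le_mul' hlt.le (h.pow_lt ?_).le).trans (mul_eq_self hl).le
    exact mul_lt_of_lt hl h.small hlt
  have hB1 : #{x | ∃ η : W, #(Cls F f lam η x) ≤ lam} ≤ lam := by
    have h1 : {x | ∃ η : W, #(Cls F f lam η x) ≤ lam} ⊆ ⋃ p : W × (W → Set I),
        {x | #(Cls F f lam p.1 x) ≤ lam ∧ ∀ ξ < p.1, Tf F f lam x ξ = p.2 ξ} := by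
      rintro x ⟨η, hη⟩
      exact mem_iUnion.2 ⟨(η, fun ξ => Tf F f lam x ξ), hη, fun _ _ => rfl⟩
    refine (mk_le_mk_of_subset h1).trans (un_le hl _ hcnt fun p => ?_)
    rcases eq_empty_or_nonempty
      {x | #(Cls F f lam p.1 x) ≤ lam ∧ ∀ ξ < p.1, Tf F f lam x ξ = p.2 ξ} with he | ⟨x, hx1, hx2⟩
    · rw [he]
      simp
    · refine (mk_le_mk_of_subset ?_).trans hx1
      rintro z ⟨-, hz⟩ ξ hξ
      exact (hz ξ hξ).trans (hx2 ξ hξ).symm
  have hB2 : #{x | ∃ η : W, lam < #(Cls F f lam η x) ∧ ¬ ∀ᶠ i in F, Y η x i ∉ f x} ≤ lam := by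
    have h1 : {x | ∃ η : W, lam < #(Cls F f lam η x) ∧ ¬ ∀ᶠ i in F, Y η x i ∉ f x} ⊆
        ⋃ p : W × (W → Set I), {x | lam < #(Cls F f lam p.1 x) ∧
          (¬ ∀ᶠ i in F, Y p.1 x i ∉ f x) ∧ ∀ ξ < p.1, Tf F f lam x ξ = p.2 ξ} := by
      rintro x ⟨η, hη, hη'⟩
      exact mem_iUnion.2 ⟨(η, fun ξ => Tf F f lam x ξ), hη, hη', fun _ _ => rfl⟩
    refine (mk_le_mk_of_subset h1).trans (un_le hl _ hcnt fun p => ?_)
    rcases eq_empty_or_nonempty {x | lam < #(Cls F f lam p.1 x) ∧
          (¬ ∀ᶠ i in F, Y p.1 x i ∉ f x) ∧ ∀ ξ < p.1, Tf F f lam x ξ = p.2 ξ} with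
      he | ⟨x, hx1, -, hx2⟩
    · rw [he]
      simp
    · refine (mk_le_mk_of_subset ?_).trans (hgood p.1 x hx1).2
      rintro z ⟨-, hz1, hz2⟩
      have hz : z ∈ Cls F f lam p.1 x := fun ξ hξ => (hz2 ξ hξ).trans (hx2 ξ hξ).symm
      rw [show Y p.1 z = Y p.1 x from Yf_congr F f p.1 x z hz] at hz1
      exact hz1
  -- a good point
  obtain ⟨x, hx⟩ : ∃ x, x ∉ {x | ∃ η : W, #(Cls F f lam η x) ≤ lam} ∪
      {x | ∃ η : W, lam < #(Cls F f lam η x) ∧ ¬ ∀ᶠ i in F, Y η x i ∉ f x} := by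
    by_contra hcon
    push Not at hcon
    have h1 : (Set.univ : Set S) ⊆ {x | ∃ η : W, #(Cls F f lam η x) ≤ lam} ∪
      {x | ∃ η : W, lam < #(Cls F f lam η x) ∧ ¬ ∀ᶠ i in F, Y η x i ∉ f x} := fun x _ => hcon x
    have h2 := (mk_le_mk_of_subset h1).trans ((mk_union_le _ _).trans (add_le_of_le hl hB1 hB2))
    rw [mk_univ, hS] at h2
    exact absurd (lt_succ lam) (not_lt.2 h2)
  have hx1 : ∀ η : W, lam < #(Cls F f lam η x) := by
    intro η
    by_contra hcon
    exact hx (Or.inl ⟨η, not_lt.1 hcon⟩)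
  have hx2 : ∀ η : W, ∀ᶠ i in F, Y η x i ∉ f x := by
    intro η
    by_contra hcon
    exact hx (Or.inr ⟨η, hx1 η, hcon⟩)
  choose j hj using fun η => (hx2 η).exists
  obtain ⟨i, hi⟩ := infinite_pigeonhole_card j nu hW.ge hnu.aleph0_le (by rwa [hnu.cof_ord])
  -- the free set
  have hrel : ∀ ξ η : W, j ξ = i → ξ < η → Y ξ x i ∉ f (Y η x i) ∧ Y η x i ≠ Y ξ x i ∧
      Y η x i ∉ f (Y ξ x i) := by
    intro ξ η hξi hlt'
    obtain ⟨hc, ha⟩ := (hgood η x (hx1 η)).1 i
    refine ⟨?_, fun he => ha ⟨ξ, hlt', i, Or.inl he⟩, fun he => ha ⟨ξ, hlt', i, Or.inr he⟩⟩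
    have h1 : i ∈ Tf F f lam x ξ := by
      have := hj ξ
      rw [hξi] at this
      exact this
    have h2 : i ∈ Tf F f lam (Y η x i) ξ := by
      rw [hc ξ hlt']
      exact h1
    have h3 : Y ξ (Y η x i) i ∉ f (Y η x i) := h2
    rwa [show Y ξ (Y η x i) = Y ξ x from Yf_congr F f ξ x _ (Cls_mono F f hlt' hc)] at h3
  have hinj : Set.InjOn (fun η => Y η x i) (j ⁻¹' {i}) := by
    intro η hη ξ hξ he
    rcases lt_trichotomy η ξ with h' | h' | h'
    · exact absurd he.symm (hrel η ξ hη h').2.1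
    · exact h'
    · exact absurd he (hrel ξ η hξ h').2.1
  refine ⟨(fun η => Y η x i) '' (j ⁻¹' {i}), ?_, ?_⟩
  · rw [mk_image_eq_of_injOn _ _ hinj]
    exact le_antisymm ((mk_set_le _).trans_eq hW) hi
  · rintro _ ⟨η, hη, rfl⟩ _ ⟨ξ, hξ, rfl⟩ hne'
    rcases lt_trichotomy η ξ with h' | h' | h'
    · exact (hrel η ξ hη h').2.2
    · exact absurd (by rw [h']) hne'
    · exact (hrel ξ η hξ h').1

/-- the theorem -/
theorem main (h : Ctx lam F d m n) {nu : Cardinal.{0}} (hnu : nu < lam) :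
    Pool.Agent.Lib_MP_38e082_ap.Arrow (succ lam) (succ lam) lam nu := by
  intro S f hS _ hfc hI
  have hl := h.inf
  obtain ⟨i0⟩ := h.idx
  have hal : ℵ₀ < lam := (h.reg i0).aleph0_le.trans_lt (h.lt i0)
  set c : Cardinal.{0} := max (max nu #I) ℵ₀ with hc
  have hcl : c < lam := max_lt (max_lt hnu h.small) hal
  obtain ⟨H, hH, hfr⟩ := main_reg h (isRegular_succ (le_max_right _ _ : ℵ₀ ≤ c)) (h.succ_lt hcl)
    (((le_max_right _ _).trans (le_max_left _ _)).trans_lt (lt_succ c)) hS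
    (fun x => lt_succ_iff.1 (hfc x)) hI
  have h1 : nu ≤ #H := by
    rw [hH]
    exact ((le_max_left _ _).trans (le_max_left _ _)).trans (le_succ c)
  obtain ⟨H', hH', hH'c⟩ := le_mk_iff_exists_subset.1 h1
  exact ⟨H', hH'c, fun x hx y hy => hfr x (hH' hx) y (hH' hy)⟩

/-- `(cf λ)⁺ < λ` -/
theorem succ_cof_lt (h : Ctx lam F d m n) : succ lam.ord.cof < lam := by
  have h1 : (⨆ i, (d i).ord + 1) = lam.ord := by
    apply le_antisymm
    · refine ciSup_le' fun i => ?_
      have : (d i).ord < lam.ord := ord_lt_ord.2 (h.lt i)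
      exact Order.add_one_le_of_lt this
    · refine le_of_forall_lt fun a ha => ?_
      rw [lt_ord] at ha
      obtain ⟨i, hi⟩ := h.ex ha
      have h2 : a < (d i).ord := lt_ord.2 hi
      refine h2.trans_le ((Order.le_succ _).trans ?_)
      exact le_ciSup (f := fun i => (d i).ord + 1) Ordinal.bddAbove_of_small i
  have h3 : lam.ord.cof ≤ #I := by
    rw [← h1]
    exact Ordinal.cof_iSup_add_one_le _
  exact h.succ_lt (h3.trans_lt h.small)

end Main

end Pool.Agent.Lib_MP_38e082_pb
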